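import Pool.Agent.H.MP_182b9e_gt.A

namespace Pool.Agent.Results.MP_182b9e_gt.Origin

open Pool.Agent.H.MP_182b9e_gt Set Metric

theorem h_ball {d} (y v : E d) (hv : ‖v‖ = 1) : h ((· + y) '' closedBall 0 1) v = 1 + inner ℝ y v := by
  refine IsGreatest.csSup_eq ⟨⟨_, ⟨v, by simp [hv], rfl⟩, by simp [inner_add_left, hv]⟩, ?_⟩
  rintro _ ⟨_, ⟨z, hz, rfl⟩, rfl⟩
  have := real_inner_le_norm z v
  simp only [inner_add_left, mem_closedBall_zero_iff, hv, mul_one] at *
  linarith

theorem result (n : ℕ) (hn : 2 ≤ n) (b : Bool) : ∃ S : Set (E n) → Set (E n),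
    (∀ K, Cls b K → Cls b (S K) ∧ -S K = S K) ∧
    (∀ K L, Cls b K → Cls b L → K ⊆ L → S K ⊆ S L) ∧
    (∀ K, Cls b K → mw (S K) = mw K) ∧
    (∀ K, Cls b K → -K = K → S K = K) ∧
    ∃ K y, Cls b K ∧ -K = K ∧ S ((· + y) '' K) ≠ S K := by
  have k : Cls b (closedBall (0 : E n) 1) := ⟨isCompact_closedBall _ _, convex_closedBall _ _, ⟨0, by simp⟩,
    fun _ => ⟨0, mem_interior_iff_mem_nhds.2 (closedBall_mem_nhds _ one_pos)⟩⟩
  let i : Fin n := ⟨0, by omega⟩
  let j : Fin n := ⟨1, by omega⟩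
  refine ⟨D, fun K => D_cls (by omega), fun K L => D_mono, fun K hK => WD hK.1 hK.2.2.1, fun K => D_fix,
    _, EuclideanSpace.single i 3, k, by simp, fun e => ?_⟩
  rw [D_fix k (by simp)] at e
  have c : IsCompact ((· + EuclideanSpace.single i 3) '' closedBall (0 : E n) 1) := k.1.image (by fun_prop)
  have a := hD c (k.2.2.1.image _) (EuclideanSpace.single i 1)
  have a' := hD c (k.2.2.1.image _) (EuclideanSpace.single j 1)
  have z := h_ball (d := n) 0
  simp only [add_zero, image_id'] at z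
  rw [e, z _ (by simp), h_ball _ _ (by simp), h_ball _ _ (by simp)] at a a'
  have : i ≠ j := by simp [i, j]
  simp [EuclideanSpace.inner_single_left, this] at a a'
  norm_num at a a'
  linarith

end Pool.Agent.Results.MP_182b9e_gt.Origin
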